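import Pool.Agent.Q16.XP.Main2
import Pool.Agent.Q16.XP.Deep2
import Pool.Agent.Q16.XP.First
import Pool.Agent.Q123.XP_E6

/-!
# The pattern `a, b, ab, a^b, a^b b`: colourings that exclude explicit classes of pairs, and no
infinite monochromatic families

There is a finite colouring of `ℕ` for which the pattern is not monochromatic when all prime factors
of one of `a`, `b` are smaller than those of the other, or when `a` and `b` are coprime and all
exponents in `b` are smaller than those in `a`, and for which monochromatic pairs with the same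
smallest prime factor satisfy six restrictive conditions.  In every infinite set there are
`b < a`, and also `a < b`, for which the pattern is not monochromatic.  Two further families of
colourings exclude pairs by their first prime factors and by the digit sum of an exponent.
-/

set_option autoImplicit false

namespace Pool.Agent.Results.MP_1b773e_co.NoInfiniteSet

/-- The numbers `a, b, ab, a^b, a^b b` all have the same colour. -/
def Mono {k : ℕ} (c : ℕ → Fin k) (a b : ℕ) : Prop :=
  c b = c a ∧ c (a * b) = c a ∧ c (a ^ b) = c a ∧ c (a ^ b * b) = c a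

/-- Every prime factor of `m` is smaller than every prime factor of `n`. -/
def Separated (m n : ℕ) : Prop := ∀ p q : ℕ, p.Prime → q.Prime → p ∣ m → q ∣ n → p < q

/-- `m` and `n` are coprime and every exponent in the factorization of `m` is smaller than every
exponent in the factorization of `n`. -/
def ExpSeparated (m n : ℕ) : Prop :=
  n.Coprime m ∧ ∀ p q : ℕ, p.Prime → q.Prime → p ∣ m → q ∣ n → m.factorization p < n.factorization q

/-- The exponent in `n` of the smallest prime factor of `n`. -/
def expo (n : ℕ) : ℕ := n.factorization n.minFac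

/-- The exponent in `expo n` of the smallest prime factor of `n`. -/
def expo2 (n : ℕ) : ℕ := (expo n).factorization n.minFac

/-- The number of prime factors of `n` that are smaller than `p`. -/
def rank (n p : ℕ) : ℕ := (n.primeFactors.filter (· < p)).card

theorem result :
    (∃ (k : ℕ) (c : ℕ → Fin k),
      (∀ a b : ℕ, 1 < a → 1 < b → Separated b a ∨ Separated a b ∨ ExpSeparated b a → ¬ Mono c a b) ∧
      (∀ p a b : ℕ, 1 < a → 1 < b → a.minFac = p → b.minFac = p → Mono c a b →
        0 < expo2 a ∧ p ^ expo2 a ≤ expo b ∧ (expo2 a).factorization p < expo2 b ∧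
          expo2 b < p ^ (Nat.log p (expo2 a) + 2) ∧
          (p ^ expo2 b ≤ expo2 a ∨ p ^ Nat.log p (expo2 a) ≤ expo2 b) ∧
          p ^ (2 * expo b) ≤ b * expo a) ∧
      (∀ X : Set ℕ, X.Infinite → (∀ n ∈ X, 1 < n) →
        (∃ a ∈ X, ∃ b ∈ X, b < a ∧ ¬ Mono c a b) ∧ (∃ a ∈ X, ∃ b ∈ X, a < b ∧ ¬ Mono c a b))) ∧
    (∀ J : ℕ, ∃ (k : ℕ) (c : ℕ → Fin k), ∀ a b p q : ℕ, 1 < a → 1 < b → p.Prime → q.Prime →
      p ∣ b → ¬ p ∣ a → q ∣ a → ¬ q ∣ b → rank (a * b) p < J → rank (a * b) q < J →
      c (a * b) ≠ c (a ^ b * b)) ∧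
    (∀ J : ℕ, ∃ (k : ℕ) (c : ℕ → Fin k), ∀ p a b : ℕ, 1 < a → 1 < b → a.minFac = p → b.minFac = p →
      (Nat.digits p (expo b)).sum ≤ J → c b ≠ c (a ^ b * b)) := by
  refine ⟨?_, Q16.XP.first, Pool.Agent.Q123.XP_E6.t_E6⟩
  have e := Fintype.equivFin Q16.XP.K3
  have key : ∀ {a b : ℕ}, Mono (fun n => e (Q16.XP.col3 n)) a b → Q16.XP.MonoC Q16.XP.col3 a b := by
    intro a b hm
    exact ⟨e.injective hm.1, e.injective hm.2.1, e.injective hm.2.2.1, e.injective hm.2.2.2⟩
  refine ⟨Fintype.card Q16.XP.K3, fun n => e (Q16.XP.col3 n), ?_, ?_, ?_⟩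
  · intro a b ha hb h hm
    exact Q16.XP.sep a b ha hb h (Q16.XP.mono_col2 (key hm))
  · intro p a b ha hb hpa hpb hm
    exact Q16.XP.same3 p a b ha hb hpa hpb (key hm)
  · intro X hX hX1
    obtain ⟨⟨a, ha, b, hb, hab, h1⟩, ⟨a', ha', b', hb', hab', h2⟩⟩ := Q16.XP.infinite2 X hX hX1
    exact ⟨⟨a, ha, b, hb, hab, fun hm => h1 (Q16.XP.mono_col2 (key hm))⟩,
      ⟨a', ha', b', hb', hab', fun hm => h2 (Q16.XP.mono_col2 (key hm))⟩⟩

end Pool.Agent.Results.MP_1b773e_co.NoInfiniteSet
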